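import Pool.Agent.Helper37.SN.Stmts

/-! FRB: the fractional derivative of a bump decays. -/

namespace Pool.Agent.Helper37.SN

open MeasureTheory Finset AddCircle
open scoped ComplexConjugate

theorem FRB_norm (n : ℤ) (u : UnitAddCircle) : ‖(fourier n u : ℂ)‖ = 1 := Circle.norm_coe _

theorem FRB_add (n : ℤ) (u v : UnitAddCircle) :
    (fourier n (u + v) : ℂ) = fourier n u * fourier n v := by
  rw [fourier_apply, zsmul_add, toCircle_add, Circle.coe_mul]
  rfl

theorem FRB_neg (n : ℤ) (u : UnitAddCircle) : (fourier n (-u) : ℂ) = fourier (-n) u := by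
  rw [fourier_apply, fourier_apply, smul_neg, neg_smul]

theorem FRB_ortho (n m : ℤ) :
    ∫ t, (fourier (-n) t : ℂ) * fourier m t ∂haar1 = if n = m then 1 else 0 := by
  have h := congrFun (fourierCoeff_fourier (T := 1) m) n
  rw [Pi.single_apply] at h
  exact h

theorem FRB_mult (r : ℝ) (n : ℤ) : mult r (-n) = conj (mult r n) := by
  unfold mult
  by_cases h : n = 0
  · subst h
    simp
  · have habs : |((-n : ℤ) : ℝ)| = |(n : ℝ)| := by rw [Int.cast_neg, abs_neg]
    rw [if_neg (by simpa using h), if_neg h, map_mul, Complex.conj_ofReal, ← Complex.exp_conj,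
      habs]
    congr 2
    rw [map_neg, map_mul, Complex.conj_I, Complex.conj_ofReal, Int.sign_neg]
    push_cast
    ring

theorem FRB_mult_ne (r : ℝ) (n : ℤ) : mult r n ≠ 0 := by
  unfold mult
  split_ifs with h
  · exact one_ne_zero
  · refine mul_ne_zero ?_ (Complex.exp_ne_zero _)
    have h1 : (0 : ℝ) < |(n : ℝ)| := abs_pos.2 (by exact_mod_cast h)
    exact_mod_cast (Real.rpow_pos_of_pos h1 _).ne'

theorem FRB_FT (W : ℝ → ℝ) (ξ : ℝ) : FT W (-ξ) = conj (FT W ξ) := by
  unfold FT
  rw [← integral_conj]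
  congr 1
  funext y
  rw [map_mul, ← Complex.exp_conj, Complex.conj_ofReal, map_neg, map_mul, Complex.conj_I,
    Complex.conj_ofReal]
  congr 2
  push_cast
  ring

theorem FRB_cc (r : ℝ) (W : ℝ → ℝ) (σ : ℕ) (n : ℤ) : cc r W σ (-n) = conj (cc r W σ n) := by
  unfold cc
  rw [map_mul, map_mul, map_inv₀, map_inv₀, Complex.conj_ofReal, ← FRB_mult, ← FRB_FT]
  congr 2
  push_cast
  ring

theorem FRB_low (h3 : ST_REP) (u : UnitAddCircle) : 4 * ‖u‖ ≤ ‖(fourier 1 u : ℂ) - 1‖ := by
  obtain ⟨hr1, hr2, hr3, -, -⟩ := h3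
  have h1 : (fourier 1 u : ℂ) = Complex.exp (Complex.I * ((2 * Real.pi * rep u : ℝ) : ℂ)) := by
    conv_lhs => rw [← hr1 u]
    rw [fourier_coe_apply]
    congr 1
    push_cast
    ring
  rw [h1, Complex.norm_exp_I_mul_ofReal_sub_one, ← hr2 u]
  have h2 : |2 * Real.pi * rep u / 2| ≤ Real.pi / 2 := by
    have h4 : |rep u| ≤ 1 / 2 := abs_le.2 ⟨(hr3 u).1.le, (hr3 u).2⟩
    rw [show 2 * Real.pi * rep u / 2 = Real.pi * rep u by ring, abs_mul,
      abs_of_pos Real.pi_pos]
    have := mul_le_mul_of_nonneg_left h4 Real.pi_pos.le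
    linarith
  have h5 := Real.mul_abs_le_abs_sin h2
  rw [show 2 * Real.pi * rep u / 2 = Real.pi * rep u by ring, abs_mul,
    abs_of_pos Real.pi_pos] at h5
  have h6 : 2 / Real.pi * (Real.pi * |rep u|) = 2 * |rep u| := by
    field_simp
  rw [h6] at h5
  rw [Real.norm_eq_abs, abs_mul, abs_two,
    show 2 * Real.pi * rep u / 2 = Real.pi * rep u by ring]
  linarith

theorem st_FRB (h1 : ST_CN) (h2 : ST_FRA) (h3 : ST_REP) : ST_FRB := by
  intro r hr
  obtain ⟨C, hC, hCN⟩ := h1 r hr
  refine ⟨2 * C, by positivity, ?_⟩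
  intro a W hW σ x hσ
  obtain ⟨hs1, hb1, hs2, hb2⟩ := hCN a W hW σ
  have hprob : IsProbabilityMeasure haar1 := by
    unfold haar1
    infer_instance
  set c : ℤ → ℂ := cc r W σ with hc
  set S : UnitAddCircle → ℂ := fun t => ∑' n : ℤ, c n * (fourier n (t - x) : ℂ) with hS
  have hnc : ∀ (n : ℤ) (t : UnitAddCircle), ‖c n * (fourier n (t - x) : ℂ)‖ = ‖c n‖ := by
    intro n t
    rw [norm_mul, FRB_norm, mul_one]
  have hsum : ∀ t, Summable (fun n : ℤ => c n * (fourier n (t - x) : ℂ)) := by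
    intro t
    refine Summable.of_norm ?_
    simp only [hnc]
    exact hs1
  have hcont1 : ∀ n : ℤ, Continuous (fun t : UnitAddCircle => c n * (fourier n (t - x) : ℂ)) := by
    intro n
    exact continuous_const.mul ((map_continuous (fourier n)).comp (continuous_id.sub continuous_const))
  have hcont : Continuous S :=
    continuous_tsum hcont1 hs1 (fun n t => le_of_eq (hnc n t))
  have hreal : ∀ t, conj (S t) = S t := by
    intro t
    have e1 : conj (S t) = ∑' n : ℤ, c (-n) * (fourier (-n) (t - x) : ℂ) := by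
      rw [hS]
      simp only
      rw [Complex.conj_tsum]
      refine tsum_congr (fun n => ?_)
      rw [map_mul, hc, FRB_cc, fourier_neg]
    rw [e1]
    exact (Equiv.neg ℤ).tsum_eq (fun n => c n * (fourier n (t - x) : ℂ))
  have hre : ∀ t, (((S t).re : ℝ) : ℂ) = S t := fun t => Complex.conj_eq_iff_re.1 (hreal t)
  refine ⟨fun t => (S t).re, Complex.continuous_re.comp hcont, ?_, ?_⟩
  · intro n
    have hint : ∀ m : ℤ, Integrable (fun t => (fourier (-n) t : ℂ) *
        (c m * (fourier m (t - x) : ℂ))) haar1 := by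
      intro m
      refine Integrable.of_bound
        (((map_continuous (fourier (-n))).mul (hcont1 m)).aestronglyMeasurable) ‖c m‖
        (Filter.Eventually.of_forall (fun t => ?_))
      rw [norm_mul, hnc, FRB_norm, one_mul]
    have hnorm : ∀ m : ℤ, ∫ t, ‖(fourier (-n) t : ℂ) * (c m * (fourier m (t - x) : ℂ))‖ ∂haar1 =
        ‖c m‖ := by
      intro m
      have : ∀ t : UnitAddCircle, ‖(fourier (-n) t : ℂ) * (c m * (fourier m (t - x) : ℂ))‖ =
          ‖c m‖ := by
        intro t
        rw [norm_mul, hnc, FRB_norm, one_mul]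
      simp only [this]
      simp
    have hHS := hasSum_integral_of_summable_integral_norm hint (by simp only [hnorm]; exact hs1)
    have hterm : ∀ m : ℤ, ∫ t, (fourier (-n) t : ℂ) * (c m * (fourier m (t - x) : ℂ)) ∂haar1 =
        if m = n then c n * (fourier (-n) x : ℂ) else 0 := by
      intro m
      have e2 : ∀ t : UnitAddCircle, (fourier (-n) t : ℂ) * (c m * (fourier m (t - x) : ℂ)) =
          (c m * (fourier (-m) x : ℂ)) * ((fourier (-n) t : ℂ) * fourier m t) := by
        intro t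
        rw [sub_eq_add_neg, FRB_add, FRB_neg]
        ring
      simp only [e2]
      rw [integral_const_mul, FRB_ortho]
      by_cases h : m = n
      · subst h
        simp
      · rw [if_neg (fun h' => h h'.symm), if_neg h, mul_zero]
    have hval : ∫ t, (fourier (-n) t : ℂ) * S t ∂haar1 = c n * (fourier (-n) x : ℂ) := by
      have e3 : ∀ t : UnitAddCircle, (fourier (-n) t : ℂ) * S t =
          ∑' m : ℤ, (fourier (-n) t : ℂ) * (c m * (fourier m (t - x) : ℂ)) := by
        intro t
        rw [tsum_mul_left]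
      simp only [e3]
      rw [← hHS.tsum_eq]
      simp only [hterm]
      exact tsum_ite_eq n (fun _ => c n * (fourier (-n) x : ℂ))
    have hfc : fc1 (fun t => (S t).re) n = c n * (fourier (-n) x : ℂ) := by
      unfold fc1
      simp only [hre]
      exact hval
    rw [hfc, h2 W σ x n hσ hW.1.continuous hW.2.1, hc]
    unfold cc
    have := FRB_mult_ne r n
    field_simp
  · intro t
    set A : ℝ := C * a * (2 : ℝ) ^ (r * σ) with hA
    have hφ : |(S t).re| = ‖S t‖ := by
      conv_rhs => rw [← hre t]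
      rw [Complex.norm_real, Real.norm_eq_abs]
    have hb3 : ‖S t‖ ≤ A := by
      refine le_trans (tsum_of_norm_bounded hs1.hasSum (fun n => le_of_eq (hnc n t))) hb1
    set u : UnitAddCircle := t - x with hu
    have hshift : S t = ∑' n : ℤ, c (n + 1) * (fourier (n + 1) u : ℂ) :=
      ((Equiv.addRight (1 : ℤ)).tsum_eq (fun n => c n * (fourier n u : ℂ))).symm
    have hmul : (fourier 1 u : ℂ) * S t = ∑' n : ℤ, c n * (fourier (n + 1) u : ℂ) := by
      rw [hS]
      simp only
      rw [← tsum_mul_left]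
      refine tsum_congr (fun n => ?_)
      rw [← hu, fourier_add]
      ring
    have hs3 : Summable (fun n : ℤ => c n * (fourier (n + 1) u : ℂ)) := by
      refine Summable.of_norm ?_
      have : ∀ n : ℤ, ‖c n * (fourier (n + 1) u : ℂ)‖ = ‖c n‖ := by
        intro n
        rw [norm_mul, FRB_norm, mul_one]
      simp only [this]
      exact hs1
    have hs0 : Summable (fun n : ℤ => ‖c (n + 1)‖) :=
      (Equiv.addRight (1 : ℤ)).summable_iff (f := fun n : ℤ => ‖c n‖).2 hs1
    have hs4 : Summable (fun n : ℤ => c (n + 1) * (fourier (n + 1) u : ℂ)) := by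
      refine Summable.of_norm ?_
      have : ∀ n : ℤ, ‖c (n + 1) * (fourier (n + 1) u : ℂ)‖ = ‖c (n + 1)‖ := by
        intro n
        rw [norm_mul, FRB_norm, mul_one]
      simp only [this]
      exact hs0
    have hdiff : ((fourier 1 u : ℂ) - 1) * S t =
        ∑' n : ℤ, (c n - c (n + 1)) * (fourier (n + 1) u : ℂ) := by
      rw [sub_mul, one_mul, hmul]
      conv_lhs => rw [hshift]
      rw [← hs3.tsum_sub hs4]
      refine tsum_congr (fun n => ?_)
      ring
    have hb4 : ‖((fourier 1 u : ℂ) - 1) * S t‖ ≤ C * a * (2 : ℝ) ^ ((r - 1) * σ) := by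
      rw [hdiff]
      refine le_trans (tsum_of_norm_bounded hs2.hasSum (fun n => ?_)) hb2
      rw [norm_mul, FRB_norm, mul_one, norm_sub_rev]
    have hpow : (2 : ℝ) ^ ((r - 1) * σ) * 2 ^ σ = (2 : ℝ) ^ (r * σ) := by
      rw [← Real.rpow_natCast 2 σ, ← Real.rpow_add two_pos]
      congr 1
      ring
    have hb5 : 4 * ‖u‖ * ‖S t‖ ≤ C * a * (2 : ℝ) ^ ((r - 1) * σ) := by
      refine le_trans ?_ hb4
      rw [norm_mul]
      exact mul_le_mul_of_nonneg_right (FRB_low h3 u) (norm_nonneg _)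
    have hb6 : 4 * (2 ^ σ * ‖u‖ * ‖S t‖) ≤ A := by
      have h2σ : (0 : ℝ) ≤ 2 ^ σ := by positivity
      have := mul_le_mul_of_nonneg_left hb5 h2σ
      rw [hA, ← hpow]
      calc 4 * (2 ^ σ * ‖u‖ * ‖S t‖) = 2 ^ σ * (4 * ‖u‖ * ‖S t‖) := by ring
        _ ≤ _ := this
        _ = _ := by ring
    have hA0 : 0 ≤ A := le_trans (norm_nonneg _) hb3
    rw [hφ]
    unfold env
    rw [mul_one_div, le_div_iff₀ (by positivity)]
    have : ‖S t‖ * (1 + 2 ^ σ * ‖u‖) = ‖S t‖ + 2 ^ σ * ‖u‖ * ‖S t‖ := by ring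
    rw [this]
    have hA2 : 2 * C * a * (2 : ℝ) ^ (r * σ) = 2 * A := by
      rw [hA]
      ring
    rw [hA2]
    linarith

end Pool.Agent.Helper37.SN
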